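import Pool.Agent.H8.TX.Targets
import Pool.Agent.H64.TD.KIN

/-!
# The height inequality for finite families of points (row KNX of tx_modules)
-/

set_option autoImplicit false

open MvPolynomial
open Pool.Agent.H12.ZD (pmap)
open Pool.Agent.H18.HIT Pool.Agent.H18.HX Pool.Agent.H18.VZ
open Pool.Agent.H8.ZA (HFam Const NA)
open Pool.Agent.H8.TD (lc dg Wsp Cop dh)

namespace Pool.Agent.H4.TX

open Pool.Agent.H8.TX

section szn

variable {k : Type} [CommRing k] {n : ℕ}

theorem one_le_szn (v : AbsoluteValue k ℝ) (x : Fin n → k) : 1 ≤ szn v x :=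
  (Finset.le_fold_max 1).2 (Or.inl le_rfl)

theorem szn_pos (v : AbsoluteValue k ℝ) (x : Fin n → k) : 0 < szn v x :=
  lt_of_lt_of_le one_pos (one_le_szn v x)

theorem szn_single (v : AbsoluteValue k ℝ) (c : k) : szn v ![c] = max 1 (v c) := by
  unfold szn
  rw [Finset.univ_unique, Finset.fold_singleton, max_comm]
  rfl

theorem szn_eq_one {v : AbsoluteValue k ℝ} {x : Fin n → k} (h : ∀ i, v (x i) ≤ 1) :
    szn v x = 1 :=
  le_antisymm ((Finset.fold_max_le 1).2 ⟨le_rfl, fun i _ => h i⟩) (one_le_szn v x)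

end szn

section height

variable {K : IntermediateField ℚ Qb} {n : ℕ}

theorem szn_finite (F : HFam K) (x : Fin n → Qb) : {i | szn (F.abv i) x ≠ 1}.Finite := by
  have h1 : ∀ j : Fin n, {i | x j ≠ 0 ∧ F.abv i (x j) ≠ 1}.Finite := by
    intro j
    by_cases hj : x j = 0
    · refine Set.Finite.subset Set.finite_empty fun i hi => (hi.1 hj).elim
    · exact (F.finite (x j) hj).subset fun i hi => hi.2
  refine (Set.finite_iUnion h1).subset fun i hi => ?_
  by_contra hcon
  refine hi (szn_eq_one fun j => ?_)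
  rw [Set.mem_iUnion, not_exists] at hcon
  have h2 := hcon j
  by_cases hj : x j = 0
  · rw [hj, map_zero]
    exact zero_le_one
  · have h3 : F.abv i (x j) = 1 := by
      by_contra h4
      exact h2 ⟨hj, h4⟩
    exact h3.le

theorem log_szn_finite (F : HFam K) (x : Fin n → Qb) :
    (Function.support fun i => Real.log (szn (F.abv i) x)).Finite :=
  (szn_finite F x).subset fun i hi h1 => hi (by simp only [h1, Real.log_one])

theorem log_abv_finite (F : HFam K) {x : Qb} (hx : x ≠ 0) :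
    (Function.support fun i => Real.log (F.abv i x)).Finite :=
  (F.finite x hx).subset fun i hi h1 => hi (by simp only [h1, Real.log_one])

theorem hn_nonneg (F : HFam K) (x : Fin n → Qb) : 0 ≤ hn F x :=
  finsum_nonneg fun _ => Real.log_nonneg (one_le_szn _ x)

theorem hn_compare (F : HFam K) {a b c : ℕ} {x : Fin a → Qb} {y : Fin b → Qb} {z : Fin c → Qb}
    {N A B : ℝ} (q : Qb) (hq0 : q ≠ 0) (C : F.ι → ℝ) (hC : Const F C)
    (h : ∀ i, N * Real.log (szn (F.abv i) x) + Real.log (F.abv i q) ≤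
      A * Real.log (szn (F.abv i) y) + B * Real.log (szn (F.abv i) z) + Real.log (C i)) :
    N * hn F x + ∑ᶠ i, Real.log (F.abv i q) ≤ A * hn F y + B * hn F z + ∑ᶠ i, Real.log (C i) := by
  have hlogq := log_abv_finite F hq0
  have s1 : (Function.support fun i => N * Real.log (szn (F.abv i) x)).Finite :=
    (log_szn_finite F x).subset fun i hi h1 => hi (by simp only [h1, mul_zero])
  have s2 : (Function.support fun i => A * Real.log (szn (F.abv i) y)).Finite :=
    (log_szn_finite F y).subset fun i hi h1 => hi (by simp only [h1, mul_zero])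
  have s3 : (Function.support fun i => B * Real.log (szn (F.abv i) z)).Finite :=
    (log_szn_finite F z).subset fun i hi h1 => hi (by simp only [h1, mul_zero])
  have e1 : N * hn F x = ∑ᶠ i, N * Real.log (szn (F.abv i) x) := mul_finsum _ _
  have e2 : A * hn F y = ∑ᶠ i, A * Real.log (szn (F.abv i) y) := mul_finsum _ _
  have e3 : B * hn F z = ∑ᶠ i, B * Real.log (szn (F.abv i) z) := mul_finsum _ _
  rw [e1, e2, e3, ← finsum_add_distrib s1 hlogq, ← finsum_add_distrib s2 s3,
    ← finsum_add_distrib ((s2.union s3).subset (Function.support_add _ _)) hC.log_finite]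
  apply finsum_le_finsum'
  · exact (s1.union hlogq).subset (Function.support_add _ _)
  · refine (((s2.union s3).subset (Function.support_add _ _)).union hC.log_finite).subset
      (Function.support_add _ _)
  · exact h

end height

theorem pf_KNX (hSRB : Pool.Agent.H8.TD.T_SRB) (hDLB : Pool.Agent.H8.TD.T_DLB)
    (hAXF : Pool.Agent.H8.TD.T_AXF) (hNUM : Pool.Agent.H8.TD.T_NUM)
    (hGNX : Pool.Agent.H8.TD.T_GNX) (hWBY : T_WBY) : T_KNX := by
  classical
  intro R K _ _ _ _ _ _ _ a b A B g Q Q' M s t t' hinj htr htop hQ hM hQs hQ' hMle hex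
  -- the maximum
  obtain ⟨q, hq1, hqQ, hqmax, u, u', huu⟩ : ∃ q : ℕ, 1 ≤ q ∧ q ≤ Q' ∧
      (∀ u u' : Fin b → Qb, dg Qb {algebraMap R K g, lc u (fun i => algebraMap R K (B i)),
        lc u' (fun i => algebraMap R K (B i))} ≤ q) ∧
      ∃ u u' : Fin b → Qb, dg Qb {algebraMap R K g, lc u (fun i => algebraMap R K (B i)),
        lc u' (fun i => algebraMap R K (B i))} = q := by
    set P : ℕ → Prop := fun m => ∃ u u' : Fin b → Qb, dg Qb {algebraMap R K g,
      lc u (fun i => algebraMap R K (B i)), lc u' (fun i => algebraMap R K (B i))} = m with hP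
    obtain ⟨u, u', hu1⟩ := hex
    refine ⟨Nat.findGreatest P Q', ?_, Nat.findGreatest_le Q', ?_, ?_⟩
    · exact hu1.trans (Nat.le_findGreatest (hQ' u u') ⟨u, u', rfl⟩)
    · intro w w'
      exact Nat.le_findGreatest (hQ' w w') ⟨w, w', rfl⟩
    · exact Nat.findGreatest_spec (P := P) (hQ' u u') ⟨u, u', rfl⟩
  have htg : Transcendental Qb (algebraMap R K g) :=
    Pool.Agent.H64.TD.transc_of_dg _ _ _ htr (huu ▸ hq1)
  have htgR : Transcendental Qb g := (transcendental_algebraMap_iff hinj).1 htg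
  -- the parameters
  obtain ⟨n₀, hn₀⟩ := hDLB Qb K a b (fun i => algebraMap R K (A i))
    (fun i => algebraMap R K (B i)) s t t' htr htop (hQ.trans hQs)
  obtain ⟨t₀, n, l, ht₀, hnn, hl, hnum⟩ := hNUM Q q M n₀ hQ hq1 hM
  have hdl := hn₀ n l
  have hsr := hSRB Qb K a b (fun i => algebraMap R K (A i))
    (fun i => algebraMap R K (B i)) (algebraMap R K g) M q (n + n₀) (l + n₀)
    (18 * M * t₀ + 1) u u' htr htop hq1 huu hqmax hMle (by
      rw [hnn, hl]
      nlinarith)
  -- the auxiliary section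
  have hfinW : Module.Finite Qb (Wsp Qb A B (n + n₀) (l + n₀)) := Pool.Agent.H64.TD.Wsp_finite A B _ _
  obtain ⟨S, S', hS'0, hSS, hSW⟩ := hAXF Qb R K (Wsp Qb A B (n + n₀) (l + n₀)) g (Q * t₀)
    ((18 * M * t₀ + 1) * ((n + n₀) * M + (l + n₀ + 1) * q)) hinj htgR hfinW
    (by rw [Pool.Agent.H64.TD.span_Wsp]; exact hsr) (by
      rw [Pool.Agent.H64.TD.finrank_Wsp (K := K) A B hinj]
      refine lt_of_lt_of_le ?_ hdl
      calc Q * t₀ * ((18 * M * t₀ + 1) * ((n + n₀) * M + (l + n₀ + 1) * q))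
          = Q * t₀ * ((18 * M * t₀ + 1) * (9 * q * t₀ * M + (9 * M * t₀ + 1) * q)) := by
            rw [hnn, hl]
        _ < Q * ((n + 1) * ((l + 1) * (l + 2) / 2)) := hnum
        _ ≤ _ := Nat.mul_le_mul_right _ hQs)
  obtain ⟨γ₀, hγ₀⟩ := ne_zero_iff.1 hS'0
  refine ⟨coeff γ₀ S', hγ₀, fun K' F => ?_⟩
  -- constants
  choose cG hcG0 hcG1 hcGna hcG using fun i =>
    hGNX Qb (Q * t₀) S'.totalDegree (F.abv i)
  choose cW hcW hcWb using fun γ => hWBY R a b A B (n + n₀) (l + n₀) (coeff γ S) (hSW γ) K' F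
  set CW : F.ι → ℝ := fun i => ∏ γ ∈ S.support, cW γ i with hCW
  have hCWc : Const F CW := Pool.Agent.H8.ZA.Const.prod _ _ fun γ _ => hcW γ
  have hGc : Const F fun i => (cG i)⁻¹ := by
    refine ⟨fun i => (one_le_inv₀ (hcG0 i)).2 (hcG1 i), ?_⟩
    refine (F.arch.finite_toSet).subset fun i hi => ?_
    by_contra hcon
    exact hi (by rw [hcGna i (F.na i hcon), inv_one])
  set CC : F.ι → ℝ := fun i => CW i * (cG i)⁻¹ with hCC
  have hCCc : Const F CC := hCWc.mul hGc
  refine ⟨(∑ᶠ i, Real.log (CC i)) / t₀, fun m evs hb0 hbK => ?_⟩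
  -- the local inequality
  have hloc : ∀ (ev : R →ₐ[Qb] Qb) (i : F.ι), cG i * max 1 (F.abv i (ev g)) ^ (Q * t₀) *
      F.abv i (ev (coeff γ₀ S')) ≤
      CW i * (szn (F.abv i) (fun j => ev (A j)) ^ (n + n₀) *
        szn (F.abv i) (fun j => ev (B j)) ^ (l + n₀)) := by
    intro ev i
    have hms : map (ev : R →+* Qb) S =
        (∏ j, (X j - C (ev g))) * map (ev : R →+* Qb) S' := by
      rw [hSS, map_mul, map_prod]
      congr 1
      apply Finset.prod_congr rfl
      intro j _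
      rw [map_sub, map_X, map_C]
      rfl
    have hdeg : (map (ev : R →+* Qb) S').totalDegree ≤ S'.totalDegree :=
      Pool.Agent.H8.ZA.totalDegree_map_le _ _
    obtain ⟨γ', hγ'⟩ := hcG i (ev g) (map (ev : R →+* Qb) S') hdeg γ₀
    rw [← hms, coeff_map, coeff_map] at hγ'
    refine hγ'.trans ?_
    have hR : 0 ≤ szn (F.abv i) (fun j => ev (A j)) ^ (n + n₀) *
        szn (F.abv i) (fun j => ev (B j)) ^ (l + n₀) :=
      mul_nonneg (pow_nonneg (szn_pos _ _).le _)
        (pow_nonneg (szn_pos _ _).le _)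
    by_cases hsup : γ' ∈ S.support
    · refine (hcWb γ' i ev).trans ?_
      exact mul_le_mul_of_nonneg_right
        (Pool.Agent.H8.ZA.le_prod_const _ _ (fun γ _ => hcW γ) hsup i) hR
    · rw [notMem_support_iff.1 hsup, map_zero, map_zero]
      exact mul_nonneg (hCWc.pos i).le hR
  have hloc2 : ∀ ev : R →ₐ[Qb] Qb, ev (coeff γ₀ S') ≠ 0 → ∀ i : F.ι, ((Q * t₀ : ℕ) : ℝ) * Real.log (szn (F.abv i) ![ev g]) +
      Real.log (F.abv i (ev (coeff γ₀ S'))) ≤
      ((n + n₀ : ℕ) : ℝ) * Real.log (szn (F.abv i) (fun j => ev (A j))) +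
      ((l + n₀ : ℕ) : ℝ) * Real.log (szn (F.abv i) (fun j => ev (B j))) +
        Real.log (CC i) := by
    intro ev hb0 i
    have hb : 0 < F.abv i (ev (coeff γ₀ S')) := (F.abv i).pos hb0
    have hsA := szn_pos (F.abv i) (fun j => ev (A j))
    have hsB := szn_pos (F.abv i) (fun j => ev (B j))
    have hmx : (0 : ℝ) < max 1 (F.abv i (ev g)) := lt_of_lt_of_le one_pos (le_max_left _ _)
    have h2 := Real.log_le_log (mul_pos (mul_pos (hcG0 i) (pow_pos hmx _)) hb) (hloc ev i)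
    rw [Real.log_mul (mul_pos (hcG0 i) (pow_pos hmx _)).ne' hb.ne',
      Real.log_mul (hcG0 i).ne' (pow_pos hmx _).ne', Real.log_pow,
      Real.log_mul (hCWc.pos i).ne' (mul_pos (pow_pos hsA _) (pow_pos hsB _)).ne',
      Real.log_mul (pow_pos hsA _).ne' (pow_pos hsB _).ne', Real.log_pow,
      Real.log_pow] at h2
    have h3 : Real.log (CC i) = Real.log (CW i) - Real.log (cG i) := by
      simp only [hCC]
      rw [Real.log_mul (hCWc.pos i).ne' (inv_pos.2 (hcG0 i)).ne', Real.log_inv]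
      ring
    rw [h3, szn_single]
    linarith
  have hcmp : ∀ ev : R →ₐ[Qb] Qb, ev (coeff γ₀ S') ≠ 0 →
      ((Q * t₀ : ℕ) : ℝ) * hn F ![ev g] + ∑ᶠ i, Real.log (F.abv i (ev (coeff γ₀ S'))) ≤
      ((n + n₀ : ℕ) : ℝ) * hn F (fun j => ev (A j)) +
      ((l + n₀ : ℕ) : ℝ) * hn F (fun j => ev (B j)) + ∑ᶠ i, Real.log (CC i) :=
    fun ev hb => hn_compare F _ hb CC hCCc (hloc2 ev hb)
  have hsum := Finset.sum_le_sum fun j (_ : j ∈ (Finset.univ : Finset (Fin m))) =>
    hcmp (evs j) (hb0 j)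
  have hprod : ∑ j, ∑ᶠ i, Real.log (F.abv i (evs j (coeff γ₀ S'))) = 0 := by
    rw [← finsum_sum_comm _ _ (fun j _ => log_abv_finite F (hb0 j))]
    rw [← F.prod _ hbK (Finset.prod_ne_zero_iff.2 fun j _ => hb0 j)]
    refine finsum_congr fun i => ?_
    rw [map_prod, Real.log_prod (fun j _ => ((F.abv i).pos (hb0 j)).ne')]
  rw [Finset.sum_add_distrib, hprod, add_zero, ← Finset.mul_sum, Finset.sum_add_distrib,
    Finset.sum_add_distrib, ← Finset.mul_sum, ← Finset.mul_sum, Finset.sum_const,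
    Finset.card_univ, Fintype.card_fin, nsmul_eq_mul] at hsum
  have htpos : (0 : ℝ) < t₀ := by exact_mod_cast ht₀
  have hqQR : (q : ℝ) ≤ Q' := by exact_mod_cast hqQ
  have hA0 : 0 ≤ ∑ j, hn F (fun i => evs j (A i)) := Finset.sum_nonneg fun j _ => hn_nonneg F _
  have h5 : (t₀ : ℝ) * (Q * ∑ j, hn F ![evs j g]) ≤
      t₀ * (9 * q * ∑ j, hn F (fun i => evs j (A i)) +
      9 * M * ∑ j, hn F (fun i => evs j (B i)) + m * ((∑ᶠ i, Real.log (CC i)) / t₀)) := by
    have e1 : (t₀ : ℝ) * (m * ((∑ᶠ i, Real.log (CC i)) / t₀)) = m * ∑ᶠ i, Real.log (CC i) := by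
      field_simp
    rw [hnn, hl] at hsum
    push_cast at hsum
    calc (t₀ : ℝ) * (Q * ∑ j, hn F ![evs j g]) = Q * t₀ * ∑ j, hn F ![evs j g] := by ring
      _ ≤ _ := hsum
      _ = _ := by
        rw [mul_add, e1]
        ring
  have h6 := le_of_mul_le_mul_left h5 htpos
  have h7 : 9 * (q : ℝ) * ∑ j, hn F (fun i => evs j (A i)) ≤
      9 * Q' * ∑ j, hn F (fun i => evs j (A i)) :=
    mul_le_mul_of_nonneg_right (by linarith) hA0
  linarith

end Pool.Agent.H4.TX
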